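import Mathlib
import Pool.Agent.Lib.MP_1403bb_al.Basic

set_option autoImplicit false

open Set Pointwise Filter Topology

namespace Pool.Agent.Results.MP_1403bb_al.ExpGrowth

open Pool.Agent.Lib.MP_1403bb_al

section

variable {G : Type*} [Group G] {S : Finset G} (hS : Subgroup.closure (S : Set G) = ⊤)
include hS

/-- an ultrafilter with a nonprincipal limit escapes every ball -/
lemma eventually_far {f : G → ℝ} {u : Ultrafilter G}
    (hu : ∀ y, ∃ k : ℤ, f y = k ∧ ∀ᶠ x in (u : Filter G), bInt S x y = k)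
    (hf : f ∉ range (busemann S)) (n : ℕ) : ∀ᶠ x in (u : Filter G), n < wordLength S x := by
  by_contra h
  rw [← Ultrafilter.eventually_not] at h
  have h1 : ∀ᶠ x in (u : Filter G), ∃ z ∈ {g : G | wordLength S g ≤ n}, x = z := by
    filter_upwards [h] with x hx
    exact ⟨x, not_lt.1 hx, rfl⟩
  obtain ⟨z, _, hz⟩ := (Ultrafilter.eventually_exists_mem_iff (finite_ball hS n)).1 h1
  apply hf
  refine ⟨z, ?_⟩
  ext y
  obtain ⟨k, hk, hk'⟩ := hu y
  obtain ⟨x, hx1, hx2⟩ := (hz.and hk').exists
  rw [busemann_eq, hk, ← hx2, hx1]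

/-- boundary points are unbounded below -/
lemma exists_le_neg {f : G → ℝ} (hf : f ∈ horoBoundary S) (n : ℕ) :
    ∃ y : G, f y = -(n : ℝ) := by
  obtain ⟨u, hu⟩ := exists_ultrafilter_bInt hf.1
  have hfar := eventually_far hS hu hf.2 n
  have h1 : ∀ᶠ x in (u : Filter G), ∃ y ∈ {g : G | wordLength S g ≤ n}, bInt S x y = -(n : ℤ) := by
    filter_upwards [hfar] with x hx
    obtain ⟨a, b, hab, ha, hb⟩ := exists_mul_of_le hS hx.le
    refine ⟨a, ha.le, ?_⟩
    have h2 : x⁻¹ * a = b⁻¹ := by rw [hab]; group
    rw [bInt, mul_one, h2, wordLength_inv hS, wordLength_inv hS, hb]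
    push_cast [hx.le]
    ring
  obtain ⟨y, _, hy⟩ := (Ultrafilter.eventually_exists_mem_iff (finite_ball hS n)).1 h1
  obtain ⟨k, hk, hk'⟩ := hu y
  obtain ⟨x, hx1, hx2⟩ := (hy.and hk').exists
  refine ⟨y, ?_⟩
  rw [hk, ← hx2, hx1]
  simp

/-- the functions `b_x` are isolated -/
lemma exists_isolating (x : G) : ∃ V : Set (G → ℝ), IsOpen V ∧ busemann S x ∈ V ∧
    ∀ x', busemann S x' ∈ V → x' = x := by
  classical
  let L : Finset G := (finite_letters S).toFinset
  let V : Set (G → ℝ) := {g | ∀ s ∈ L, g (x * s) > -(wordLength S x : ℝ) - 1 / 2} ∩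
    {g | g x < -(wordLength S x : ℝ) + 1 / 2}
  refine ⟨V, ?_, ?_, ?_⟩
  · refine IsOpen.inter ?_ ?_
    · have : {g : G → ℝ | ∀ s ∈ L, g (x * s) > -(wordLength S x : ℝ) - 1 / 2} =
          ⋂ s ∈ L, {g : G → ℝ | g (x * s) > -(wordLength S x : ℝ) - 1 / 2} := by
        ext g; simp
      rw [this]
      refine isOpen_biInter_finset fun s _ => ?_
      exact isOpen_lt continuous_const (continuous_apply (x * s))
    · exact isOpen_lt (continuous_apply x) continuous_const
  · have h0 := wordLength_one hS
    constructor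
    · intro s _
      have h1 : x⁻¹ * (x * s) = s := by group
      simp only [busemann, h1, mul_one, wordLength_inv hS]
      have : (0 : ℝ) ≤ wordLength S s := by positivity
      linarith
    · have h1 : x⁻¹ * x = 1 := by group
      simp only [busemann, mem_ofPred_eq, h1, h0, mul_one, wordLength_inv hS]
      norm_num
  · rintro x' ⟨h1, h2⟩
    by_contra hne
    simp only [mem_ofPred_eq, busemann, mul_one, wordLength_inv hS] at h1 h2
    have hpos : 1 ≤ wordLength S (x'⁻¹ * x) := by
      by_contra h
      have : wordLength S (x'⁻¹ * x) = 0 := by omega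
      have := eq_one_of_wordLength_eq_zero hS this
      exact hne (inv_mul_eq_one.1 this)
    obtain ⟨a, b, hab, ha, hb⟩ := exists_mul_of_le hS (n := wordLength S (x'⁻¹ * x) - 1)
      (g := x'⁻¹ * x) (by omega)
    have hb1 : wordLength S b = 1 := by omega
    have hbL : Letter S b := by
      obtain ⟨l, hl, hl', hl''⟩ := (wordLength_le_iff hS b 1).1 hb1.le
      rw [List.length_eq_one_iff] at hl
      obtain ⟨c, rfl⟩ := hl
      simp only [List.prod_cons, List.prod_nil, mul_one] at hl''
      rw [← hl'']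
      exact hl' c (by simp)
    have h3 := h1 b⁻¹ (by simpa [L] using hbL.inv)
    have h4 : x'⁻¹ * (x * b⁻¹) = a := by
      rw [← mul_assoc, hab]; group
    rw [h4, ha] at h3
    have h5 : ((wordLength S (x'⁻¹ * x) - 1 : ℕ) : ℝ) = (wordLength S (x'⁻¹ * x) : ℝ) - 1 := by
      push_cast [hpos]; ring
    rw [h5] at h3
    -- parity: distances are integers
    have h6 : (wordLength S (x'⁻¹ * x) : ℤ) - wordLength S x' ≤ -(wordLength S x : ℤ) := by
      by_contra hcon
      push Not at hcon
      have : (-(wordLength S x : ℤ) + 1 : ℤ) ≤ (wordLength S (x'⁻¹ * x) : ℤ) - wordLength S x' := by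
        omega
      have : (-(wordLength S x : ℝ) + 1 : ℝ) ≤ (wordLength S (x'⁻¹ * x) : ℝ) - wordLength S x' := by
        exact_mod_cast this
      linarith
    have h7 : ((wordLength S (x'⁻¹ * x) : ℝ) - wordLength S x') ≤ -(wordLength S x : ℝ) := by
      exact_mod_cast h6
    linarith

lemma abs_busemann_le (x y : G) : |busemann S x y| ≤ wordLength S y := by
  have h1 := wordLength_mul_le hS x⁻¹ y
  have h2 := wordLength_mul_le hS (x⁻¹ * y) y⁻¹
  rw [mul_assoc, mul_inv_cancel, wordLength_inv hS y] at h2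
  rw [busemann, abs_le]
  have h1' : (wordLength S (x⁻¹ * y) : ℝ) ≤ wordLength S x⁻¹ + wordLength S y := by
    exact_mod_cast h1
  have h2' : (wordLength S (x⁻¹ * 1) : ℝ) ≤ wordLength S (x⁻¹ * y) + wordLength S y := by
    exact_mod_cast h2
  rw [mul_one] at *
  constructor <;> linarith

lemma isCompact_closure_range : IsCompact (closure (range (busemann S))) := by
  have h1 : IsCompact (Set.pi univ fun y : G => Icc (-(wordLength S y : ℝ)) (wordLength S y)) :=
    isCompact_univ_pi fun y => isCompact_Icc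
  refine h1.of_isClosed_subset isClosed_closure ?_
  refine closure_minimal ?_ h1.isClosed
  rintro _ ⟨x, rfl⟩ y _
  exact abs_le.1 (abs_busemann_le hS x y)

/-- weighted size of a ball -/
noncomputable def weight (s : ℝ) (N : ℕ) : ℝ :=
  ∑ g ∈ (finite_ball hS N).toFinset, s ^ wordLength S g

/-- The key counting argument: weights `s ^ |g|` with unbounded sums over balls force the boundary
to be uncountable. -/
theorem not_countable_of_weight {s : ℝ} (h0 : 0 < s) (h1 : s < 1)
    (hW : ∀ M : ℝ, ∃ N, M < weight hS s N) : ¬ (horoBoundary S).Countable := by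
  classical
  intro hc
  have hG := countable_of_closure hS
  have hK : (closure (range (busemann S))).Countable := by
    refine (hc.union (countable_range (busemann S))).mono ?_
    intro f hf
    by_cases h : f ∈ range (busemann S)
    · exact Or.inr h
    · exact Or.inl ⟨hf, h⟩
  have : Countable (closure (range (busemann S))) := hK.to_subtype
  obtain ⟨ι, hι⟩ := exists_injective_nat (closure (range (busemann S)))
  obtain ⟨k₀, hk₀⟩ : ∃ k : ℕ, s ^ k < (1 - s) / 2 := exists_pow_lt_of_lt_one (by linarith) h1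
  have hV : ∀ f : closure (range (busemann S)), ∃ V : Set (G → ℝ), IsOpen V ∧ (f : G → ℝ) ∈ V ∧
      ((∃ x, ∀ x', busemann S x' ∈ V → x' = x) ∨
        (∃ y, ∀ x', busemann S x' ∈ V →
          wordLength S (y⁻¹ * x') + (k₀ + ι f) ≤ wordLength S x')) := by
    rintro ⟨f, hf⟩
    by_cases h : f ∈ range (busemann S)
    · obtain ⟨x, rfl⟩ := h
      obtain ⟨V, hV1, hV2, hV3⟩ := exists_isolating hS x
      exact ⟨V, hV1, hV2, Or.inl ⟨x, hV3⟩⟩
    · obtain ⟨y, hy⟩ := exists_le_neg hS (f := f) ⟨hf, h⟩ (k₀ + ι ⟨f, hf⟩)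
      refine ⟨{g | g y < -((k₀ + ι ⟨f, hf⟩ : ℕ) : ℝ) + 1 / 2},
        isOpen_lt (continuous_apply y) continuous_const, ?_, Or.inr ⟨y, ?_⟩⟩
      · simp only [mem_ofPred_eq, hy]
        linarith
      · intro x' hx'
        simp only [mem_ofPred_eq, busemann_eq] at hx'
        have h2 : bInt S x' y ≤ -((k₀ + ι ⟨f, hf⟩ : ℕ) : ℤ) := by
          by_contra hcon
          push Not at hcon
          have : (-((k₀ + ι ⟨f, hf⟩ : ℕ) : ℤ) + 1 : ℤ) ≤ bInt S x' y := by omega
          have : (-((k₀ + ι ⟨f, hf⟩ : ℕ) : ℝ) + 1 : ℝ) ≤ bInt S x' y := by exact_mod_cast this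
          linarith
        rw [bInt, mul_one, wordLength_inv hS] at h2
        have h3 : wordLength S (x'⁻¹ * y) = wordLength S (y⁻¹ * x') := by
          rw [← wordLength_inv hS]; congr 1; group
        rw [h3] at h2
        push_cast at h2
        omega
  choose V hVo hVm hVp using hV
  obtain ⟨I, hI⟩ := (isCompact_closure_range hS).elim_finite_subcover V hVo
    (fun f hf => mem_iUnion.2 ⟨⟨f, hf⟩, hVm ⟨f, hf⟩⟩)
  have hbound : ∀ N, weight hS s N ≤ 2 * I.card := by
    intro N
    set B := (finite_ball hS N).toFinset with hB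
    have hWnn : 0 ≤ weight hS s N := Finset.sum_nonneg fun g _ => by positivity
    have hf : ∀ f ∈ I, ∑ x ∈ B with busemann S x ∈ V f, s ^ wordLength S x ≤
        s ^ (k₀ + ι f) * weight hS s N + 1 := by
      intro f _
      rcases hVp f with ⟨x, hx⟩ | ⟨y, hy⟩
      · have h2 : ∑ x ∈ B with busemann S x ∈ V f, s ^ wordLength S x ≤
            ∑ z ∈ ({x} : Finset G), s ^ wordLength S z := by
          refine Finset.sum_le_sum_of_subset_of_nonneg ?_ fun z _ _ => by positivity
          intro z hz
          rw [Finset.mem_filter] at hz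
          rw [Finset.mem_singleton]
          exact hx z hz.2
        have h3 : ∑ z ∈ ({x} : Finset G), s ^ wordLength S z ≤ 1 := by
          rw [Finset.sum_singleton]
          exact pow_le_one₀ h0.le h1.le
        have h4 : 0 ≤ s ^ (k₀ + ι f) * weight hS s N := by positivity
        linarith
      · have h2 : ∑ x ∈ B with busemann S x ∈ V f, s ^ wordLength S x ≤
            ∑ x ∈ B with busemann S x ∈ V f, s ^ (k₀ + ι f) * s ^ wordLength S (y⁻¹ * x) := by
          refine Finset.sum_le_sum fun x hx => ?_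
          rw [Finset.mem_filter] at hx
          rw [← pow_add]
          refine pow_le_pow_of_le_one h0.le h1.le ?_
          have := hy x hx.2
          omega
        have h3 : ∑ x ∈ B with busemann S x ∈ V f, s ^ wordLength S (y⁻¹ * x) ≤
            weight hS s N := by
          have h5 : ∑ x ∈ B with busemann S x ∈ V f, s ^ wordLength S (y⁻¹ * x) =
              ∑ z ∈ (B.filter fun x => busemann S x ∈ V f).image (fun x => y⁻¹ * x),
                s ^ wordLength S z := by
            rw [Finset.sum_image]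
            intro a _ b _ hab
            exact mul_left_cancel hab
          rw [h5]
          refine Finset.sum_le_sum_of_subset_of_nonneg ?_ fun z _ _ => by positivity
          intro z hz
          rw [Finset.mem_image] at hz
          obtain ⟨x, hx, rfl⟩ := hz
          rw [Finset.mem_filter, hB, Finite.mem_toFinset] at hx
          rw [Finite.mem_toFinset]
          have h6 := hy x hx.2
          have h7 : wordLength S x ≤ N := hx.1
          change wordLength S (y⁻¹ * x) ≤ N
          omega
        rw [← Finset.mul_sum] at h2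
        have h4 : s ^ (k₀ + ι f) * ∑ x ∈ B with busemann S x ∈ V f, s ^ wordLength S (y⁻¹ * x) ≤
            s ^ (k₀ + ι f) * weight hS s N := mul_le_mul_of_nonneg_left h3 (by positivity)
        linarith
    have hcover : weight hS s N ≤ ∑ f ∈ I, ∑ x ∈ B with busemann S x ∈ V f,
        s ^ wordLength S x := by
      rw [weight]
      calc ∑ g ∈ B, s ^ wordLength S g
          ≤ ∑ g ∈ B, ∑ f ∈ I, if busemann S g ∈ V f then s ^ wordLength S g else 0 := by
            refine Finset.sum_le_sum fun g _ => ?_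
            have h2 : busemann S g ∈ ⋃ i ∈ I, V i := hI (subset_closure ⟨g, rfl⟩)
            simp only [mem_iUnion] at h2
            obtain ⟨f, hf, hgf⟩ := h2
            calc s ^ wordLength S g = if busemann S g ∈ V f then s ^ wordLength S g else 0 := by
                  rw [if_pos hgf]
              _ ≤ ∑ f ∈ I, if busemann S g ∈ V f then s ^ wordLength S g else 0 :=
                  Finset.single_le_sum (f := fun f => if busemann S g ∈ V f then
                    s ^ wordLength S g else 0) (fun i _ => by split_ifs <;> positivity) hf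
        _ = ∑ f ∈ I, ∑ g ∈ B, if busemann S g ∈ V f then s ^ wordLength S g else 0 :=
            Finset.sum_comm
        _ = ∑ f ∈ I, ∑ x ∈ B with busemann S x ∈ V f, s ^ wordLength S x := by
            refine Finset.sum_congr rfl fun f _ => ?_
            rw [Finset.sum_filter]
    have hsum : ∑ f ∈ I, s ^ (k₀ + ι f) ≤ 1 / 2 := by
      have h2 : ∑ f ∈ I, s ^ (k₀ + ι f) = s ^ k₀ * ∑ f ∈ I, s ^ ι f := by
        rw [Finset.mul_sum]
        exact Finset.sum_congr rfl fun f _ => pow_add _ _ _
      have h3 : ∑ f ∈ I, s ^ ι f = ∑ n ∈ I.image ι, s ^ n := by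
        rw [Finset.sum_image fun a _ b _ hab => hι hab]
      have h4 : ∑ n ∈ I.image ι, s ^ n ≤ (1 - s)⁻¹ := by
        rw [← tsum_geometric_of_lt_one h0.le h1]
        exact (summable_geometric_of_lt_one h0.le h1).sum_le_tsum _ fun _ _ => by positivity
      rw [h2, h3]
      have h5 : 0 < 1 - s := by linarith
      calc s ^ k₀ * ∑ n ∈ I.image ι, s ^ n ≤ s ^ k₀ * (1 - s)⁻¹ :=
            mul_le_mul_of_nonneg_left h4 (by positivity)
        _ ≤ ((1 - s) / 2) * (1 - s)⁻¹ := mul_le_mul_of_nonneg_right hk₀.le (by positivity)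
        _ = 1 / 2 := by field_simp
    have hfin := Finset.sum_le_sum hf
    rw [Finset.sum_add_distrib, ← Finset.sum_mul] at hfin
    simp only [Finset.sum_const, nsmul_eq_mul, mul_one] at hfin
    have h9 : (∑ f ∈ I, s ^ (k₀ + ι f)) * weight hS s N ≤ 1 / 2 * weight hS s N :=
      mul_le_mul_of_nonneg_right hsum hWnn
    linarith
  obtain ⟨N, hN⟩ := hW (2 * I.card)
  exact absurd (hbound N) (not_le.2 hN)

end

/-- If a finitely generated group has exponential growth (with respect to some finite generating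
set `T`), then the metric-functional boundary of every Cayley metric on it is uncountable. -/
theorem result (G : Type*) [Group G] (T : Finset G) (hT : Subgroup.closure (T : Set G) = ⊤)
    (hexp : ∃ c : ℝ, 1 < c ∧ ∀ n : ℕ, c ^ n ≤ (Nat.card {g : G // wordLength T g ≤ n} : ℝ))
    (S : Finset G) (hS : Subgroup.closure (S : Set G) = ⊤) :
    ¬ (horoBoundary S).Countable := by
  classical
  obtain ⟨c, hc, hexp⟩ := hexp
  -- comparison of the two word lengths
  obtain ⟨K, hK0, hK⟩ : ∃ K : ℕ, 0 < K ∧ ∀ g : G, wordLength S g ≤ K * wordLength T g := by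
    obtain ⟨K, hK⟩ : ∃ K : ℕ, ∀ s, Letter T s → wordLength S s ≤ K := by
      refine ⟨∑ s ∈ (finite_letters T).toFinset, wordLength S s, fun s hs => ?_⟩
      exact Finset.single_le_sum (f := fun s => wordLength S s) (fun _ _ => Nat.zero_le _)
        (by simpa using hs)
    refine ⟨K + 1, by omega, fun g => ?_⟩
    obtain ⟨l, hl, hl', hl''⟩ := (wordLength_le_iff hT g _).1 le_rfl
    rw [← hl, ← hl'']
    clear hl hl''
    induction l with
    | nil => simp [wordLength_one hS]
    | cons a l ih =>
      rw [List.prod_cons, List.length_cons]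
      have h1 := wordLength_mul_le hS a l.prod
      have h2 := hK a (hl' a (by simp))
      have h3 := ih fun s hs => hl' s (List.mem_cons_of_mem _ hs)
      nlinarith
  -- choose the weight
  obtain ⟨s, hs0, hs1, hs2⟩ : ∃ s : ℝ, 0 < s ∧ s < 1 ∧ 1 < s ^ K * c := by
    have h1 : Tendsto (fun s : ℝ => s ^ K * c) (𝓝[<] 1) (𝓝 (1 ^ K * c)) :=
      ((continuous_pow K).mul continuous_const).continuousAt.tendsto.mono_left nhdsWithin_le_nhds
    rw [one_pow, one_mul] at h1
    have h2 : ∀ᶠ s : ℝ in 𝓝[<] 1, 1 < s ^ K * c := h1.eventually (lt_mem_nhds hc)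
    have h3 : ∀ᶠ s : ℝ in 𝓝[<] 1, 0 < s :=
      (lt_mem_nhds (show (0 : ℝ) < 1 by norm_num)).filter_mono nhdsWithin_le_nhds
    have h4 : ∀ᶠ s : ℝ in 𝓝[<] 1, s < 1 := self_mem_nhdsWithin
    obtain ⟨s, ha, hb, hc'⟩ := (h3.and (h4.and h2)).exists
    exact ⟨s, ha, hb, hc'⟩
  refine not_countable_of_weight hS hs0 hs1 fun M => ?_
  obtain ⟨n, hn⟩ := pow_unbounded_of_one_lt M hs2
  refine ⟨K * n, hn.trans_le ?_⟩
  have h1 : (Nat.card {g : G // wordLength T g ≤ n} : ℝ) ≤ ((finite_ball hS (K * n)).toFinset.card : ℝ) := by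
    have h2 : Nat.card {g : G // wordLength T g ≤ n} = (finite_ball hT n).toFinset.card := by
      exact Set.ncard_eq_toFinset_card _ (finite_ball hT n)
    rw [h2]
    norm_cast
    refine Finset.card_le_card fun g hg => ?_
    rw [Finite.mem_toFinset] at *
    exact (hK g).trans (Nat.mul_le_mul_left K hg)
  calc (s ^ K * c) ^ n = s ^ (K * n) * c ^ n := by rw [mul_pow, pow_mul]
    _ ≤ s ^ (K * n) * ((finite_ball hS (K * n)).toFinset.card : ℝ) :=
        mul_le_mul_of_nonneg_left ((hexp n).trans h1) (by positivity)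
    _ = ∑ _g ∈ (finite_ball hS (K * n)).toFinset, s ^ (K * n) := by
        rw [Finset.sum_const, nsmul_eq_mul, mul_comm]
    _ ≤ weight hS s (K * n) := by
        refine Finset.sum_le_sum fun g hg => ?_
        rw [Finite.mem_toFinset] at hg
        exact pow_le_pow_of_le_one hs0.le hs1.le hg

end Pool.Agent.Results.MP_1403bb_al.ExpGrowth
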