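import Mathlib
import Pool.Agent.Lib.MP_1403bb_al.Basic
import Pool.Agent.Lib.MP_1403bb_al.Bnd
import Pool.Agent.Lib.MP_1403bb_al.Top

set_option autoImplicit false

open Set Filter Topology

namespace Pool.Agent.Results.MP_1403bb_al.Quotients

open Pool.Agent.Lib.MP_1403bb_al

/-- a nontrivial homomorphism to the integers can be divided so as to become surjective -/
lemma exists_surjective {H : Type*} [Group H] (φ : H →* Multiplicative ℤ) {h₀ : H}
    (h : φ h₀ ≠ 1) : ∃ ψ : H →* Multiplicative ℤ, Function.Surjective ψ := by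
  obtain ⟨R, hR⟩ : ∃ R : AddSubgroup ℤ, ∀ n : ℤ, n ∈ R ↔ ∃ x, Multiplicative.toAdd (φ x) = n :=
    ⟨{ carrier := {n | ∃ x, Multiplicative.toAdd (φ x) = n}
       add_mem' := by
        rintro _ _ ⟨x, rfl⟩ ⟨y, rfl⟩
        exact ⟨x * y, by rw [map_mul, toAdd_mul]⟩
       zero_mem' := ⟨1, by rw [map_one, toAdd_one]⟩
       neg_mem' := by
        rintro _ ⟨x, rfl⟩
        exact ⟨x⁻¹, by rw [map_inv, toAdd_inv]⟩ }, fun n => Iff.rfl⟩
  obtain ⟨a, ha⟩ := Int.subgroup_cyclic R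
  have ha1 : ∀ x, a ∣ Multiplicative.toAdd (φ x) := by
    intro x
    have h1 := (hR _).2 ⟨x, rfl⟩
    rw [ha, AddSubgroup.mem_closure_singleton] at h1
    obtain ⟨n, hn⟩ := h1
    exact ⟨n, by rw [← hn, smul_eq_mul, mul_comm]⟩
  have ha0 : a ≠ 0 := by
    rintro rfl
    apply h
    have h1 := zero_dvd_iff.1 (ha1 h₀)
    exact h1
  refine ⟨⟨⟨fun x => Multiplicative.ofAdd (Multiplicative.toAdd (φ x) / a), ?_⟩, ?_⟩, ?_⟩
  · rw [map_one, toAdd_one, Int.zero_ediv, ofAdd_zero]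
  · intro x y
    change Multiplicative.ofAdd (Multiplicative.toAdd (φ (x * y)) / a) = _
    rw [map_mul, toAdd_mul, Int.add_ediv_of_dvd_left (ha1 x), ofAdd_add]
  · intro n
    have h1 : Multiplicative.toAdd n * a ∈ R := by
      rw [ha, AddSubgroup.mem_closure_singleton]
      exact ⟨Multiplicative.toAdd n, by rw [smul_eq_mul]⟩
    obtain ⟨x, hx⟩ := (hR _).1 h1
    refine ⟨x, ?_⟩
    change Multiplicative.ofAdd (Multiplicative.toAdd (φ x) / a) = n
    rw [hx, Int.mul_ediv_cancel _ ha0, ofAdd_toAdd]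

theorem result (G : Type*) [Group G] (S : Finset G) (hS : Subgroup.closure (S : Set G) = ⊤)
    (hc : (horoBoundary S).Countable) (G₁ : Subgroup G) (hfin : G₁.FiniteIndex)
    (N : Subgroup G₁) [N.Normal] (hinf : Infinite (G₁ ⧸ N)) :
    ∃ K : Subgroup (G₁ ⧸ N), K.FiniteIndex ∧
      ∃ φ : K →* Multiplicative ℤ, Function.Surjective φ := by
  classical
  obtain ⟨E, hEdef⟩ : ∃ E : Set (G → ℝ), E = {f | ∀ n : G₁, n ∈ N → 0 ≤ f n} := ⟨_, rfl⟩
  have hE : IsClosed E := by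
    have h1 : E = ⋂ n : G₁, ⋂ _ : n ∈ N, {f : G → ℝ | 0 ≤ f n} := by
      rw [hEdef]
      ext f
      simp
    rw [h1]
    exact isClosed_iInter fun n => isClosed_iInter fun _ =>
      isClosed_le continuous_const (continuous_apply _)
  -- the boundary meets `E`
  have hEne : (horoBoundary S ∩ E).Nonempty := by
    refine Bnd.exists_limit hS hE fun m => ?_
    have h1 : ((fun g : G₁ => (QuotientGroup.mk g : G₁ ⧸ N)) ''
        {g : G₁ | wordLength S (g : G) ≤ m}).Finite :=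
      ((finite_ball hS m).preimage Subtype.val_injective.injOn).image _
    obtain ⟨q, hq⟩ := h1.infinite_compl.nonempty
    have h2 : ∃ k : ℕ, ∃ u : G₁, (QuotientGroup.mk u : G₁ ⧸ N) = q ∧ wordLength S (u : G) = k := by
      obtain ⟨u, hu⟩ := QuotientGroup.mk_surjective q
      exact ⟨_, u, hu, rfl⟩
    obtain ⟨u, hu, huk⟩ := Nat.find_spec h2
    have h3 : ∀ v : G₁, (QuotientGroup.mk v : G₁ ⧸ N) = q →
        wordLength S (u : G) ≤ wordLength S (v : G) := by
      intro v hv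
      rw [huk]
      exact Nat.find_min' h2 ⟨v, hv, rfl⟩
    refine ⟨(u : G)⁻¹, ?_, ?_⟩
    · rw [wordLength_inv hS]
      by_contra hcon
      push Not at hcon
      exact hq ⟨u, hcon.le, hu⟩
    · rw [hEdef]
      intro n hn
      have h4 : (QuotientGroup.mk (u * n) : G₁ ⧸ N) = q := by
        rw [← hu, QuotientGroup.eq]
        simpa using N.inv_mem hn
      have h5 := h3 _ h4
      simp only [busemann, inv_inv, mul_one]
      have h6 : (wordLength S (u : G) : ℝ) ≤ wordLength S ((u * n : G₁) : G) := by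
        exact_mod_cast h5
      rw [Subgroup.coe_mul] at h6
      linarith
  obtain ⟨K, hKX, hKcl, hKi, ⟨f, hfK, hfE⟩, hKfin⟩ := Top.exists_finite (Y := G → ℝ) Bnd.tr
    Bnd.continuous_tr (Bnd.isCompact_horoBoundary hS) hc
    (fun f hf => Bnd.tr_one (Bnd.apply_one hS hf.1)) (fun g h f _ => Bnd.tr_tr g h f)
    (fun g f hf => Bnd.tr_mem hS hf g) hE hEne
  have hfX := hKX hfK
  have hf1 := Bnd.apply_one hS hfX.1
  choose v hv using fun y => Bnd.exists_int hfX.1 y
  -- minimal points of cosets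
  have hmin : ∀ g : G₁, ∃ g' : G₁, (QuotientGroup.mk g' : G₁ ⧸ N) = QuotientGroup.mk g ∧
      Bnd.tr (g' : G) f ∈ K ∩ E ∧ f g' ≤ f g := by
    intro g
    have h1 : ∀ h : G₁, (QuotientGroup.mk h : G₁ ⧸ N) = QuotientGroup.mk g →
        -(wordLength S (g : G) : ℤ) ≤ v h := by
      intro h hh
      have h2 : h * g⁻¹ ∈ N := by
        have h3 : g⁻¹ * h ∈ N := by
          rw [← QuotientGroup.eq, hh]
        have h4 := (inferInstance : N.Normal).conj_mem _ h3 g
        have h5 : g * (g⁻¹ * h) * g⁻¹ = h * g⁻¹ := by group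
        rwa [h5] at h4
      rw [hEdef] at hfE
      have h3 := hfE _ h2
      have h4 := Bnd.le_apply_mul hS hfX.1 ((h * g⁻¹ : G₁) : G) (g : G)
      have h5 : ((h * g⁻¹ : G₁) : G) * (g : G) = h := by
        rw [← Subgroup.coe_mul, inv_mul_cancel_right]
      rw [h5, hv h] at h4
      have h6 : -(wordLength S (g : G) : ℝ) ≤ v h := by linarith
      exact_mod_cast h6
    obtain ⟨k, ⟨h, hh1, hh2⟩, hk⟩ := Int.exists_least_of_bdd
      (P := fun k => ∃ h : G₁, (QuotientGroup.mk h : G₁ ⧸ N) = QuotientGroup.mk g ∧ v h = k)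
      ⟨-(wordLength S (g : G) : ℤ), by
        rintro _ ⟨h, hh, rfl⟩
        exact h1 h hh⟩ ⟨v g, g, rfl, rfl⟩
    refine ⟨h, hh1, ⟨hKi _ f hfK, ?_⟩, ?_⟩
    · rw [hEdef]
      intro n hn
      have h2 : (QuotientGroup.mk (h * n) : G₁ ⧸ N) = QuotientGroup.mk g := by
        rw [← hh1, QuotientGroup.eq]
        simpa using N.inv_mem hn
      have h3 := hk _ ⟨h * n, h2, rfl⟩
      rw [Bnd.tr_apply, ← Subgroup.coe_mul, hv, hv, hh2]
      have h4 : (k : ℝ) ≤ v ((h * n : G₁) : G) := by exact_mod_cast h3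
      linarith
    · have h3 := hk _ ⟨g, rfl, rfl⟩
      rw [hv, hv, hh2]
      exact_mod_cast h3
  choose F hF1 hF2 hF3 using hmin
  -- the stabiliser
  obtain ⟨P, hP⟩ : ∃ P : Subgroup G₁, ∀ p : G₁, p ∈ P ↔ Bnd.tr (p : G) f = f :=
    ⟨{ carrier := {p | Bnd.tr (p : G) f = f}
       mul_mem' := by
        intro p q hp hq
        change Bnd.tr ((p * q : G₁) : G) f = f
        rw [Subgroup.coe_mul, ← Bnd.tr_tr]
        rw [show Bnd.tr (p : G) f = f from hp]
        exact hq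
       one_mem' := Bnd.tr_one hf1
       inv_mem' := by
        intro p hp
        change Bnd.tr ((p⁻¹ : G₁) : G) f = f
        rw [Subgroup.coe_inv]
        conv_lhs => rw [← show Bnd.tr (p : G) f = f from hp]
        exact Bnd.tr_inv_tr _ hf1 }, fun p => Iff.rfl⟩
  have hadd : ∀ p ∈ P, ∀ x : G, f ((p : G) * x) = f p + f x := by
    intro p hp x
    have h1 := congrFun ((hP p).1 hp) x
    rw [Bnd.tr_apply] at h1
    linarith
  have hvadd : ∀ p ∈ P, ∀ x : G, v ((p : G) * x) = v p + v x := by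
    intro p hp x
    have h1 := hadd p hp x
    rw [hv, hv, hv] at h1
    exact_mod_cast h1
  have hsame : ∀ g h : G₁, Bnd.tr (g : G) f = Bnd.tr (h : G) f → g * h⁻¹ ∈ P := by
    intro g h hgh
    rw [hP, Subgroup.coe_mul, ← Bnd.tr_tr, hgh, Subgroup.coe_inv]
    exact Bnd.tr_inv_tr _ hf1
  -- the image of `P` has finite index
  obtain ⟨Q, hQ⟩ : ∃ Q : Subgroup (G₁ ⧸ N), Q = P.map (QuotientGroup.mk' N) := ⟨_, rfl⟩
  have hQmem : ∀ p ∈ P, (QuotientGroup.mk p : G₁ ⧸ N) ∈ Q := by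
    intro p hp
    rw [hQ]
    exact ⟨p, hp, rfl⟩
  have hQfin : Finite ((G₁ ⧸ N) ⧸ Q) := by
    have : Finite (K ∩ E : Set (G → ℝ)) := hKfin.to_subtype
    refine Finite.of_injective (fun c : (G₁ ⧸ N) ⧸ Q =>
      (⟨Bnd.tr ((F ((c.out)⁻¹.out) : G₁) : G) f, hF2 _⟩ : (K ∩ E : Set (G → ℝ)))) ?_
    intro c d hcd
    have h1 := congrArg Subtype.val hcd
    have h2 := hQmem _ (hsame _ _ h1)
    rw [QuotientGroup.mk_mul, QuotientGroup.mk_inv, hF1, hF1, QuotientGroup.out_eq',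
      QuotientGroup.out_eq', inv_inv] at h2
    rw [← QuotientGroup.out_eq' c, ← QuotientGroup.out_eq' d, QuotientGroup.eq]
    exact h2
  have hQfi : Q.FiniteIndex := Subgroup.finiteIndex_of_finite_quotient
  -- the homomorphism
  obtain ⟨φ₀, hφ₀⟩ : ∃ φ₀ : P →* Multiplicative ℤ, ∀ p, φ₀ p = Multiplicative.ofAdd (v p) :=
    ⟨{ toFun := fun p => Multiplicative.ofAdd (v p)
       map_one' := by
        have h1 := hv 1
        rw [hf1] at h1
        have h2 : v (1 : G) = 0 := by exact_mod_cast h1.symm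
        simp [h2]
       map_mul' := by
        intro p q
        rw [← ofAdd_add, ← hvadd p.1 p.2 q]
        rfl }, fun p => rfl⟩
  have hker : ∀ p : P, (QuotientGroup.mk p.1 : G₁ ⧸ N) = 1 → φ₀ p = 1 := by
    intro p hp
    have h1 : p.1 ∈ N := (QuotientGroup.eq_one_iff _).1 hp
    rw [hEdef] at hfE
    have h2 := hfE _ h1
    have h3 := hfE _ (N.inv_mem h1)
    have h4 := hadd p.1 p.2 ((p.1⁻¹ : G₁) : G)
    rw [← Subgroup.coe_mul, mul_inv_cancel, Subgroup.coe_one, hf1] at h4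
    have h5 : f (p.1 : G) = 0 := by linarith
    rw [hv] at h5
    have h6 : v (p.1 : G) = 0 := by exact_mod_cast h5
    rw [hφ₀, h6, ofAdd_zero]
  obtain ⟨φ, hφ⟩ : ∃ φ : Q →* Multiplicative ℤ, ∀ p : P,
      φ ⟨QuotientGroup.mk p.1, hQmem p.1 p.2⟩ = φ₀ p := by
    subst hQ
    have hsurj := (QuotientGroup.mk' N).subgroupMap_surjective P
    refine ⟨(MonoidHom.liftOfSurjective ((QuotientGroup.mk' N).subgroupMap P) hsurj)
      ⟨φ₀, ?_⟩, ?_⟩
    · intro p hp
      rw [MonoidHom.mem_ker] at hp ⊢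
      apply hker
      exact congrArg Subtype.val hp
    · intro p
      exact MonoidHom.liftOfRightInverse_comp_apply ((QuotientGroup.mk' N).subgroupMap P) _
        (Function.rightInverse_surjInv hsurj) ⟨φ₀, _⟩ p
  -- it is not trivial
  have hne : ∃ p : P, φ₀ p ≠ 1 := by
    by_contra hcon
    push Not at hcon
    have hzero : ∀ p ∈ P, f (p : G) = 0 := by
      intro p hp
      have h1 := hcon ⟨p, hp⟩
      rw [hφ₀] at h1
      have h2 : v (p : G) = 0 := by
        have := congrArg Multiplicative.toAdd h1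
        simpa using this
      rw [hv, h2, Int.cast_zero]
    have hval : ∀ g h : G₁, Bnd.tr (g : G) f = Bnd.tr (h : G) f → f g = f h := by
      intro g h hgh
      have h1 := hsame g h hgh
      have h2 := hadd _ h1 (h : G)
      rw [hzero _ h1, ← Subgroup.coe_mul, inv_mul_cancel_right, zero_add] at h2
      exact h2
    have hbdd : ∃ C : ℝ, ∀ g : G₁, C ≤ f (F g) := by
      have h1 : (range fun g : G₁ => f (F g)).Finite := by
        refine (hKfin.image (fun h : G → ℝ =>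
          if hh : ∃ g : G₁, Bnd.tr (g : G) f = h then f (hh.choose : G) else 0)).subset ?_
        rintro _ ⟨g, rfl⟩
        refine ⟨Bnd.tr (F g : G) f, hF2 g, ?_⟩
        have hh : ∃ g' : G₁, Bnd.tr (g' : G) f = Bnd.tr (F g : G) f := ⟨F g, rfl⟩
        beta_reduce
        rw [dif_pos hh]
        exact hval _ _ hh.choose_spec
      obtain ⟨C, hC⟩ := h1.bddBelow
      exact ⟨C, fun g => hC ⟨g, rfl⟩⟩
    obtain ⟨C, hC⟩ := hbdd
    have : Finite (G ⧸ G₁) := Subgroup.finite_quotient_of_finiteIndex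
    obtain ⟨D, hD⟩ := (finite_range fun c : G ⧸ G₁ => (wordLength S (c.out⁻¹) : ℝ)).bddAbove
    have hlow : ∀ y : G, C - D ≤ f y := by
      intro y
      have h1 : ((QuotientGroup.mk y⁻¹ : G ⧸ G₁).out)⁻¹ * y⁻¹ ∈ G₁ := by
        rw [← QuotientGroup.eq, QuotientGroup.out_eq']
      have h2 := G₁.inv_mem h1
      have h3 := Bnd.le_apply_mul hS hfX.1
        (((⟨_, h2⟩ : G₁) : G)) ((QuotientGroup.mk y⁻¹ : G ⧸ G₁).out)⁻¹
      have h4 : ((⟨_, h2⟩ : G₁) : G) * ((QuotientGroup.mk y⁻¹ : G ⧸ G₁).out)⁻¹ = y := by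
        change ((((QuotientGroup.mk y⁻¹ : G ⧸ G₁).out)⁻¹ * y⁻¹)⁻¹) *
          ((QuotientGroup.mk y⁻¹ : G ⧸ G₁).out)⁻¹ = y
        group
      rw [h4] at h3
      have h5 := hF3 ⟨_, h2⟩
      have h6 := hC ⟨_, h2⟩
      have h7 : (wordLength S (((QuotientGroup.mk y⁻¹ : G ⧸ G₁).out)⁻¹) : ℝ) ≤ D :=
        hD ⟨QuotientGroup.mk y⁻¹, rfl⟩
      linarith
    obtain ⟨n, hn⟩ := exists_nat_gt (D - C)
    obtain ⟨y, hy⟩ := Bnd.exists_le_neg hS hfX n
    have h1 := hlow y
    rw [hy] at h1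
    linarith
  obtain ⟨p, hp⟩ := hne
  exact ⟨Q, hQfi, exists_surjective φ (h₀ := ⟨QuotientGroup.mk p.1, hQmem p.1 p.2⟩) (by
    rw [hφ]
    exact hp)⟩

end Pool.Agent.Results.MP_1403bb_al.Quotients
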