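import Mathlib
import Pool.Agent.Lib.MP_1403bb_al.Basic
import Pool.Agent.Lib.MP_1403bb_al.Bnd
import Pool.Agent.Lib.MP_1403bb_al.Top
import Pool.Agent.Lib.MP_1403bb_al.Path

set_option autoImplicit false

open Set Filter Topology

namespace Pool.Agent.Results.MP_1403bb_al.StableLength

open Pool.Agent.Lib.MP_1403bb_al Pool.Agent.Lib.MP_1403bb_al.Path

theorem result (G : Type*) [Group G] (S : Finset G) (hS : Subgroup.closure (S : Set G) = ⊤)
    (hc : (horoBoundary S).Countable) (T : Finset G) (ε : ℝ)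
    (hε : ∀ m : ℕ, ∃ l : List G, m ≤ l.length ∧ (∀ t ∈ l, t ∈ T) ∧
      ε * l.length ≤ wordLength S l.prod) (c : ℝ) (hcε : c < ε) :
    ∃ l : List G, l ≠ [] ∧ (∀ t ∈ l, t ∈ T) ∧
      ∀ k : ℕ, c * l.length * k ≤ wordLength S (l.prod ^ k) := by
  classical
  -- trivial case
  rcases le_or_gt ε 0 with hε0 | hε0
  · obtain ⟨l, hl1, hl2, -⟩ := hε 1
    refine ⟨l, ?_, hl2, fun k => ?_⟩
    · rintro rfl
      simp at hl1
    · have h1 : c * l.length * k ≤ 0 := by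
        have h2 : 0 ≤ (l.length : ℝ) * k := by positivity
        have h3 : c * ((l.length : ℝ) * k) ≤ 0 :=
          mul_nonpos_of_nonpos_of_nonneg (by linarith) h2
        linarith
      exact h1.trans (Nat.cast_nonneg _)
  obtain ⟨c₁, hc₁, hc₁ε⟩ := exists_between (max_lt hcε hε0)
  have hcc₁ : c < c₁ := (le_max_left _ _).trans_lt hc₁
  have hc₁0 : 0 < c₁ := (le_max_right _ _).trans_lt hc₁
  obtain ⟨h₁, hh₁X, hh₁D⟩ := exists_mem_D hS hc₁ε hc₁0.le hε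
  obtain ⟨C, hC⟩ : ∃ C : ℕ, ∀ t ∈ T, wordLength S t ≤ C :=
    ⟨T.sup (wordLength S), fun t ht => Finset.le_sup (f := wordLength S) ht⟩
  have hle : ∀ c' : ℝ, ∀ h ∈ horoBoundary S, (c', h) ∈ D T → c' ≤ C := by
    rintro c' h hX ⟨w, hw1, hw2⟩
    have h2 := hw2 1
    rw [P_succ, P_zero, one_mul] at h2
    have h3 := (abs_le.1 (Bnd.abs_le_of_mem hS hX.1 (w 0))).1
    have h4 : (wordLength S (w 0) : ℝ) ≤ C := by exact_mod_cast hC _ (hw1 0)
    push_cast at h2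
    change h (w 0) ≤ -(c' * 1) at h2
    linarith
  -- the largest speed
  obtain ⟨cs, hcs⟩ : ∃ cs : ℝ, IsGreatest
      (Prod.fst '' ((Icc c₁ (C : ℝ) ×ˢ horoBoundary S) ∩ D T)) cs := by
    refine IsCompact.exists_isGreatest ?_ ⟨c₁, (c₁, h₁), ⟨⟨⟨le_rfl, hle _ _ hh₁X hh₁D⟩, hh₁X⟩,
      hh₁D⟩, rfl⟩
    exact ((isCompact_Icc.prod (Bnd.isCompact_horoBoundary hS)).inter_right
      (isClosed_D T)).image continuous_fst
  obtain ⟨⟨⟨cs', h₂⟩, ⟨⟨⟨hcs1, hcs2⟩, hh₂X⟩, hh₂D⟩, hcs3⟩, hcsmax⟩ := hcs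
  simp only at hcs1 hcs2 hh₂X hcs3
  subst hcs3
  have hcont : ∀ x : ℝ, Continuous fun h : G → ℝ => (x, h) := fun x =>
    continuous_const.prodMk continuous_id
  obtain ⟨E, hE⟩ : ∃ E : ℕ → Set (G → ℝ), ∀ n, E n = {h | (cs' - 1 / ((n : ℝ) + 1), h) ∈ D T} :=
    ⟨_, fun n => rfl⟩
  have hlim : ∀ h : G → ℝ, (∀ n, h ∈ E n) → (cs', h) ∈ D T := by
    intro h hh
    have h3 : Tendsto (fun n : ℕ => (cs' - 1 / ((n : ℝ) + 1), h)) atTop (𝓝 (cs', h)) := by
      refine Tendsto.prodMk_nhds ?_ tendsto_const_nhds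
      have h4 := (tendsto_const_nhds (x := cs') (f := atTop (α := ℕ))).sub
        (tendsto_one_div_add_atTop_nhds_zero_nat (𝕜 := ℝ))
      simpa using h4
    refine (isClosed_D T).mem_of_tendsto h3 (Eventually.of_forall fun n => ?_)
    have h4 := hh n
    rw [hE] at h4
    exact h4
  obtain ⟨K, hKX, hKcl, hKi, ⟨h, hhK, hhE⟩, n₀, hn₀⟩ := Top.exists_finite_seq (Y := G → ℝ) Bnd.tr
    Bnd.continuous_tr (Bnd.isCompact_horoBoundary hS) hc
    (fun f hf => Bnd.tr_one (Bnd.apply_one hS hf.1)) (fun g h f _ => Bnd.tr_tr g h f)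
    (fun g f hf => Bnd.tr_mem hS hf g) (E := E)
    (fun n => by
      rw [hE]
      exact (isClosed_D T).preimage (hcont _))
    (by
      intro m n hmn f hf
      rw [hE] at hf ⊢
      refine D_mono ?_ hf
      have h3 : (1 : ℝ) / ((n : ℝ) + 1) ≤ 1 / ((m : ℝ) + 1) :=
        one_div_le_one_div_of_le (by positivity) (by
          have : (m : ℝ) ≤ n := by exact_mod_cast hmn
          linarith)
      linarith)
    ⟨h₂, hh₂X, mem_iInter.2 fun n => by
      rw [hE]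
      refine D_mono ?_ hh₂D
      have : (0 : ℝ) < 1 / ((n : ℝ) + 1) := by positivity
      linarith⟩
  have hhX := hKX hhK
  obtain ⟨w, hw1, hw2⟩ := hlim h fun n => mem_iInter.1 hhE n
  -- choose the level
  obtain ⟨n₁, hn₁⟩ := exists_nat_one_div_lt (sub_pos.2 (hcc₁.trans_le hcs1))
  obtain ⟨n, hn⟩ : ∃ n, n = max n₀ n₁ := ⟨_, rfl⟩
  obtain ⟨c', hc'⟩ : ∃ c' : ℝ, c' = cs' - 1 / ((n : ℝ) + 1) := ⟨_, rfl⟩
  have hpos : (0 : ℝ) < 1 / ((n : ℝ) + 1) := by positivity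
  have hcc' : c < c' := by
    have h3 : (1 : ℝ) / ((n : ℝ) + 1) ≤ 1 / ((n₁ : ℝ) + 1) :=
      one_div_le_one_div_of_le (by positivity) (by
        have : (n₁ : ℝ) ≤ n := by
          have h4 : n₁ ≤ n := by rw [hn]; exact le_max_right _ _
          exact_mod_cast h4
        linarith)
    linarith
  have hfin := hn₀ n (by rw [hn]; exact le_max_left _ _)
  obtain ⟨a, ha⟩ : ∃ a : ℕ → ℝ, ∀ j, a j = h (P w j) + c' * j := ⟨_, fun j => rfl⟩
  have hatop : ∀ B : ℝ, ∃ m, ∀ i ≥ m, a i ≤ B := by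
    intro B
    obtain ⟨m, hm⟩ := exists_nat_ge (-B * ((n : ℝ) + 1))
    refine ⟨m, fun i hi => ?_⟩
    have h3 := hw2 i
    change h (P w i) ≤ -(cs' * i) at h3
    have h4 : (m : ℝ) ≤ i := by exact_mod_cast hi
    have h5 : -B ≤ 1 / ((n : ℝ) + 1) * i := by
      have h6 : (0 : ℝ) < (n : ℝ) + 1 := by positivity
      rw [div_mul_eq_mul_div, one_mul, le_div_iff₀ h6]
      linarith
    rw [ha, hc']
    linarith
  obtain ⟨R, hR⟩ : ∃ R : Set ℕ, R = {j | ∀ i ≥ j, a i ≤ a j} := ⟨_, rfl⟩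
  have hRinf : R.Infinite := by
    refine Set.infinite_of_forall_exists_gt fun m => ?_
    obtain ⟨j, hj1, hj2⟩ := exists_record hatop (m + 1)
    exact ⟨j, by rw [hR]; exact hj2, by omega⟩
  have hmaps : MapsTo (fun j => Bnd.tr (P w j) h) R (K ∩ E n) := by
    intro j hj
    rw [hR] at hj
    refine ⟨hKi _ h hhK, ?_⟩
    rw [hE]
    refine ⟨fun i => w (j + i), fun i => hw1 _, fun i => ?_⟩
    have h3 := hj (j + i) (by omega)
    rw [ha, ha, P_add] at h3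
    push_cast at h3
    change Bnd.tr (P w j) h (P (fun k => w (j + k)) i) ≤ -((cs' - 1 / ((n : ℝ) + 1)) * i)
    rw [Bnd.tr_apply, ← hc']
    linarith
  obtain ⟨j₁, hj₁, j₂, hj₂, hlt, heq⟩ := hRinf.exists_lt_map_eq_of_mapsTo hmaps hfin
  obtain ⟨r, hr⟩ := Nat.exists_eq_add_of_lt hlt
  -- the periodic word
  obtain ⟨v, hv⟩ : ∃ v : ℕ → G, v = fun k => w (j₁ + k) := ⟨_, rfl⟩
  obtain ⟨g, hg⟩ : ∃ g : G → ℝ, g = Bnd.tr (P w j₁) h := ⟨_, rfl⟩
  have hP : P w j₂ = P w j₁ * P v (r + 1) := by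
    rw [hr, add_assoc, P_add, hv]
  have hgfix : Bnd.tr (P v (r + 1)) g = g := by
    have h3 : Bnd.tr (P w j₁) h = Bnd.tr (P w j₂) h := heq
    rw [hg, Bnd.tr_tr, ← hP]
    exact h3.symm
  have hgval : g (P v (r + 1)) ≤ -(c' * ((r : ℝ) + 1)) := by
    rw [hR] at hj₁
    have h3 := hj₁ j₂ hlt.le
    rw [ha, ha, hP, hr] at h3
    push_cast at h3
    rw [hg, Bnd.tr_apply]
    linarith
  have hgX : g ∈ closure (range (busemann S)) := by
    rw [hg]
    exact Bnd.tr_mem_closure hhX.1 _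
  have hg1 := Bnd.apply_one hS hgX
  have hgpow : ∀ k : ℕ, g (P v (r + 1) ^ k) = k * g (P v (r + 1)) := by
    intro k
    induction k with
    | zero => simp [hg1]
    | succ k ih =>
      have h3 := congrFun hgfix (P v (r + 1) ^ k)
      rw [Bnd.tr_apply] at h3
      rw [pow_succ', Nat.cast_succ]
      linarith
  refine ⟨(List.range (r + 1)).map v, ?_, ?_, fun k => ?_⟩
  · simp
  · intro t ht
    rw [List.mem_map] at ht
    obtain ⟨i, -, rfl⟩ := ht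
    rw [hv]
    exact hw1 _
  · rw [← P_eq_prod, List.length_map, List.length_range]
    have h3 := (abs_le.1 (Bnd.abs_le_of_mem hS hgX (P v (r + 1) ^ k))).1
    rw [hgpow] at h3
    have h4 : (k : ℝ) * g (P v (r + 1)) ≤ k * (-(c' * ((r : ℝ) + 1))) :=
      mul_le_mul_of_nonneg_left hgval (Nat.cast_nonneg k)
    have h5 : c * (((r + 1 : ℕ) : ℝ) * k) ≤ c' * (((r + 1 : ℕ) : ℝ) * k) :=
      mul_le_mul_of_nonneg_right hcc'.le (by positivity)
    push_cast at h5 ⊢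
    linarith

end Pool.Agent.Results.MP_1403bb_al.StableLength
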