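import Mathlib
import Pool.Agent.Lib.MP_1403bb_al.Basic

/-!
Every Cayley metric on a virtually abelian group has a countable metric-functional boundary.

Idea: let `A` be a normal abelian subgroup of finite index with coset representatives `t q`.
The set of pairs `(a, n)` with `|a * t q| ≤ n` is a semilinear subset of `A × ℤ` (Kleene/Parikh
argument), and the translates of a semilinear set have only countably many limits along
ultrafilters. The limit of the translates determines the horofunction.
-/

set_option autoImplicit false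

open Set Pointwise Filter Topology AddSubmonoid

namespace Pool.Agent.Results.MP_1403bb_al.VirtAbelian

open Pool.Agent.Lib.MP_1403bb_al

/-- sums of labels along nonempty walks whose intermediate vertices lie in `V` -/
inductive WalkSum {Q M : Type*} [AddCommMonoid M] (E : Q → Q → Set M) (V : Finset Q) :
    Q → Q → M → Prop
  | single {p q : Q} {m : M} (h : m ∈ E p q) : WalkSum E V p q m
  | cons {p r q : Q} {m m' : M} (h : m ∈ E p r) (hr : r ∈ V) (h' : WalkSum E V r q m') :
      WalkSum E V p q (m + m')

section walks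

variable {Q M : Type*} [AddCommMonoid M] {E : Q → Q → Set M}

lemma WalkSum.mono {V V' : Finset Q} (hV : V ⊆ V') {p q : Q} {m : M}
    (h : WalkSum E V p q m) : WalkSum E V' p q m := by
  induction h with
  | single h => exact .single h
  | cons h hr _ ih => exact .cons h (hV hr) ih

lemma WalkSum.trans {V : Finset Q} {p q r : Q} {m m' : M} (h : WalkSum E V p r m) (hr : r ∈ V)
    (h' : WalkSum E V r q m') : WalkSum E V p q (m + m') := by
  induction h with
  | single h => exact .cons h hr h'
  | cons h hr' _ ih =>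
    rw [add_assoc]
    exact .cons h hr' (ih hr h')

lemma WalkSum.insert_iff [DecidableEq Q] {V : Finset Q} {v p q : Q} {m : M} :
    WalkSum E (insert v V) p q m ↔
      m ∈ {m | WalkSum E V p q m} ∪
        ({m | WalkSum E V p v m} + (AddSubmonoid.closure {m | WalkSum E V v v m} : Set M) +
          {m | WalkSum E V v q m}) := by
  constructor
  · intro h
    induction h with
    | single h => exact Or.inl (.single h)
    | @cons p r q m m' h hr h' ih =>
      rw [Finset.mem_insert] at hr
      rcases hr with rfl | hr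
      · right
        rcases ih with ih | ⟨ab, ⟨a, ha, b, hb, rfl⟩, c, hc, rfl⟩
        · exact ⟨m + 0, ⟨m, .single h, 0, zero_mem _, rfl⟩, m', ih, by simp⟩
        · refine ⟨m + (a + b), ⟨m, .single h, a + b, ?_, rfl⟩, c, hc, ?_⟩
          · exact add_mem (mem_closure_of_mem ha) hb
          · simp [add_assoc]
      · rcases ih with ih | ⟨ab, ⟨a, ha, b, hb, rfl⟩, c, hc, rfl⟩
        · exact Or.inl (.cons h hr ih)
        · right
          exact ⟨(m + a) + b, ⟨m + a, .cons h hr ha, b, hb, rfl⟩, c, hc, by simp [add_assoc]⟩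
  · rintro (h | ⟨ab, ⟨a, ha, b, hb, rfl⟩, c, hc, rfl⟩)
    · exact WalkSum.mono (Finset.subset_insert _ _) h
    · have hv : v ∈ insert v V := Finset.mem_insert_self _ _
      have ha' : WalkSum E (insert v V) p v a := WalkSum.mono (Finset.subset_insert _ _) ha
      have hc' : WalkSum E (insert v V) v q c := WalkSum.mono (Finset.subset_insert _ _) hc
      have hb' : b = 0 ∨ WalkSum E (insert v V) v v b := by
        induction hb using closure_induction with
        | mem x hx => exact Or.inr (WalkSum.mono (Finset.subset_insert _ _) hx)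
        | zero => exact Or.inl rfl
        | add x y _ _ hx hy =>
          rcases hx with rfl | hx
          · simpa using hy
          · rcases hy with rfl | hy
            · right; simpa using hx
            · exact Or.inr (hx.trans hv hy)
      rcases hb' with rfl | hb'
      · simpa using ha'.trans hv hc'
      · exact (ha'.trans hv hb').trans hv hc'

theorem isSemilinearSet_walkSum (hE : ∀ p q, IsSemilinearSet (E p q)) (V : Finset Q) :
    ∀ p q, IsSemilinearSet {m | WalkSum E V p q m} := by
  classical
  induction V using Finset.induction_on with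
  | empty =>
    intro p q
    convert! hE p q
    ext m
    constructor
    · intro h
      cases h with
      | single h => exact h
      | cons h hr _ => simp at hr
    · intro h
      exact .single h
  | insert v V _ ih =>
    intro p q
    have : {m | WalkSum E (insert v V) p q m} = {m | WalkSum E V p q m} ∪
        ({m | WalkSum E V p v m} + (AddSubmonoid.closure {m | WalkSum E V v v m} : Set M) +
          {m | WalkSum E V v q m}) := by
      ext m
      exact WalkSum.insert_iff
    rw [this]
    exact (ih p q).union (((ih p v).add (ih v v).closure).add (ih v q))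


end walks
section shifts

variable {Γ : Type*} [AddCommGroup Γ]

/-- the set of shifts seen along the ultrafilter -/
def shiftSet (u : Ultrafilter Γ) (W : Set Γ) : Set Γ := {s | ∀ᶠ g in (u : Filter Γ), g + s ∈ W}

/-- countably many shift sets -/
def CountableShifts (W : Set Γ) : Prop := (range (fun u : Ultrafilter Γ => shiftSet u W)).Countable

lemma shiftSet_union (u : Ultrafilter Γ) (W₁ W₂ : Set Γ) :
    shiftSet u (W₁ ∪ W₂) = shiftSet u W₁ ∪ shiftSet u W₂ := by
  ext s
  simp only [shiftSet, mem_ofPred_eq, mem_union]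
  exact Ultrafilter.eventually_or

lemma CountableShifts.union {W₁ W₂ : Set Γ} (h₁ : CountableShifts W₁) (h₂ : CountableShifts W₂) :
    CountableShifts (W₁ ∪ W₂) := by
  unfold CountableShifts at *
  refine (Set.Countable.image2 h₁ h₂ (· ∪ ·)).mono ?_
  rintro _ ⟨u, rfl⟩
  exact ⟨_, ⟨u, rfl⟩, _, ⟨u, rfl⟩, (shiftSet_union u W₁ W₂).symm⟩

lemma CountableShifts.empty : CountableShifts (∅ : Set Γ) := by
  unfold CountableShifts
  refine (Set.countable_singleton (∅ : Set Γ)).mono ?_
  rintro _ ⟨u, rfl⟩
  simp [shiftSet, Ultrafilter.neBot u |>.ne]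

lemma nat_ultrafilter_dichotomy {I : Type*} (u : Ultrafilter I) (c : I → ℕ) :
    (∃ k, ∀ᶠ g in (u : Filter I), c g = k) ∨ (∀ n, ∀ᶠ g in (u : Filter I), n ≤ c g) := by
  by_cases h : ∀ n, ∀ᶠ g in (u : Filter I), n ≤ c g
  · exact Or.inr h
  · left
    push Not at h
    obtain ⟨n, hn⟩ := h
    have h2 : ∀ᶠ g in (u : Filter I), ∃ k ∈ Finset.range n, c g = k := by
      filter_upwards [hn] with g hg
      exact ⟨c g, by simpa using hg, rfl⟩
    have h3 := (Ultrafilter.eventually_exists_mem_iff (is := (Finset.range n : Set ℕ))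
      (P := fun k g => c g = k) (Finset.finite_toSet _)).1 (by simpa using h2)
    obtain ⟨k, _, hk⟩ := h3
    exact ⟨k, hk⟩

lemma countableShifts_linear [Countable Γ] (b : Γ) (t : Finset Γ) :
    CountableShifts (b +ᵥ (AddSubmonoid.closure (t : Set Γ) : Set Γ)) := by
  classical
  unfold CountableShifts
  let D : Γ × (t → Option ℕ) → Set Γ := fun sk => {s | ∃ d : t → ℤ, s - sk.1 = ∑ v, d v • (v : Γ) ∧
    ∀ v n, sk.2 v = some n → 0 ≤ (n : ℤ) + d v}
  refine ((Set.countable_singleton (∅ : Set Γ)).union (Set.countable_range D)).mono ?_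
  rintro _ ⟨u, rfl⟩
  simp only
  rcases (shiftSet u (b +ᵥ (AddSubmonoid.closure (t : Set Γ) : Set Γ))).eq_empty_or_nonempty with h | ⟨s₀, hs₀⟩
  · left; exact h
  · right
    have key : ∀ g s : Γ, g + s ∈ (b +ᵥ (AddSubmonoid.closure (t : Set Γ) : Set Γ)) ↔
        ∃ c : t → ℕ, g + s = b + ∑ v, c v • (v : Γ) := by
      intro g s
      constructor
      · rintro ⟨y, hy, hy'⟩
        rw [SetLike.mem_coe, mem_closure_finset] at hy
        obtain ⟨f, _, hf⟩ := hy
        refine ⟨fun v => f v, ?_⟩
        rw [← hy', ← hf]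
        simp only [vadd_eq_add, add_right_inj]
        rw [← Finset.sum_coe_sort]
      · rintro ⟨c, hc⟩
        rw [hc]
        refine ⟨∑ v, c v • (v : Γ), ?_, rfl⟩
        exact sum_mem fun v _ => nsmul_mem (mem_closure_of_mem v.2) _
    have hs₀' : ∀ᶠ g in (u : Filter Γ), ∃ c : t → ℕ, g + s₀ = b + ∑ v, c v • (v : Γ) := by
      filter_upwards [hs₀] with g hg
      exact (key g s₀).1 hg
    let c : Γ → t → ℕ := fun g => if h : ∃ c : t → ℕ, g + s₀ = b + ∑ v, c v • (v : Γ) then h.choose
      else fun _ => 0
    have hc : ∀ᶠ g in (u : Filter Γ), g + s₀ = b + ∑ v, c g v • (v : Γ) := by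
      filter_upwards [hs₀'] with g hg
      simp only [c, dif_pos hg]
      exact hg.choose_spec
    have hk : ∀ v : t, ∃ k : Option ℕ, (∀ n, k = some n → ∀ᶠ g in (u : Filter Γ), c g v = n) ∧
        (k = none → ∀ n, ∀ᶠ g in (u : Filter Γ), n ≤ c g v) := by
      intro v
      rcases nat_ultrafilter_dichotomy u (fun g => c g v) with ⟨k, hk⟩ | hk
      · exact ⟨some k, fun n hn => by simpa [← Option.some_injective _ hn] using hk, by simp⟩
      · exact ⟨none, by simp, fun _ => hk⟩
    choose k hk1 hk2 using hk
    refine ⟨(s₀, k), ?_⟩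
    ext s
    simp only [D, mem_ofPred_eq, shiftSet]
    constructor
    · rintro ⟨d, hd, hd'⟩
      have hlow : ∀ᶠ g in (u : Filter Γ), ∀ v : t, 0 ≤ (c g v : ℤ) + d v := by
        rw [eventually_all]
        intro v
        rcases hkv : k v with _ | n
        · filter_upwards [hk2 v hkv (d v).natAbs] with g hg
          omega
        · filter_upwards [hk1 v n hkv] with g hg
          have := hd' v n hkv
          omega
      filter_upwards [hc, hlow] with g hg hg'
      rw [key]
      refine ⟨fun v => ((c g v : ℤ) + d v).toNat, ?_⟩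
      have h1 : g + s = (g + s₀) + (s - s₀) := by abel
      rw [h1, hg, hd, add_assoc, ← Finset.sum_add_distrib]
      congr 1
      refine Finset.sum_congr rfl fun v _ => ?_
      rw [← natCast_zsmul, ← natCast_zsmul, ← add_smul, Int.toNat_of_nonneg (hg' v)]
    · intro hs
      have hall : ∀ᶠ g in (u : Filter Γ), ∀ v : t, ∀ n, k v = some n → c g v = n := by
        rw [eventually_all]
        intro v
        rcases hkv : k v with _ | n
        · simp
        · filter_upwards [hk1 v n hkv] with g hg
          intro m hm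
          rw [hg]; simpa using hm
      obtain ⟨g, hg, hgc, hgs⟩ := (hall.and (hc.and hs)).exists
      obtain ⟨c', hc'⟩ := (key g s).1 hgs
      refine ⟨fun v => (c' v : ℤ) - c g v, ?_, ?_⟩
      · have h1 : s - s₀ = (g + s) - (g + s₀) := by abel
        rw [h1, hgc, hc', add_sub_add_left_eq_sub, ← Finset.sum_sub_distrib]
        refine Finset.sum_congr rfl fun v _ => ?_
        rw [sub_smul, natCast_zsmul, natCast_zsmul]
      · intro v n hn
        have := hg v n hn
        simp only
        rw [this]
        simp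

lemma countableShifts_of_isSemilinearSet [Countable Γ] {W : Set Γ} (h : IsSemilinearSet W) :
    CountableShifts W := by
  obtain ⟨S, hS, hS', rfl⟩ := h
  induction S, hS using Set.Finite.induction_on with
  | empty => simpa using CountableShifts.empty
  | @insert a S _ _ ih =>
    rw [sUnion_insert]
    refine CountableShifts.union ?_ (ih fun t ht => hS' t (mem_insert_of_mem _ ht))
    obtain ⟨b, t, ht⟩ := isLinearSet_iff.1 (hS' a (mem_insert _ _))
    rw [ht]
    exact countableShifts_linear b t


end shifts
section main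

variable {G A : Type*} [Group G] [AddCommGroup A] (φ : Multiplicative A →* G)

/-- edge labels -/
def edge (S : Finset G) (t : G ⧸ φ.range → G) (p q : G ⧸ φ.range) : Set (A × ℤ) :=
  {x | x.2 = 1 ∧ ∃ s, Letter S s ∧ t p * s = φ (Multiplicative.ofAdd x.1) * t q}

lemma edge_finite (hφ : Function.Injective φ) (S : Finset G) (t : G ⧸ φ.range → G)
    (p q : G ⧸ φ.range) : (edge φ S t p q).Finite := by
  classical
  have hfin : {s : G | Letter S s}.Finite := finite_letters S
  let h : G → A × ℤ := fun s => if h : ∃ a : A, t p * s = φ (Multiplicative.ofAdd a) * t q then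
    (h.choose, 1) else (0, 1)
  refine (hfin.image h).subset ?_
  rintro ⟨a, n⟩ ⟨hn, s, hs, hs'⟩
  refine ⟨s, hs, ?_⟩
  have hex : ∃ a : A, t p * s = φ (Multiplicative.ofAdd a) * t q := ⟨a, hs'⟩
  simp only [h, dif_pos hex]
  have h1 := hex.choose_spec
  have h2 := hφ (mul_right_cancel (hs'.symm.trans h1))
  simp only at hn
  rw [hn]
  congr 1
  exact (Multiplicative.ofAdd.injective h2).symm

variable {φ}

/-- walks and words -/
lemma walk_of_word {S : Finset G} {t : G ⧸ φ.range → G} [Fintype (G ⧸ φ.range)]
    (ht : ∀ g : G, ∃ a : A, g = φ (Multiplicative.ofAdd a) * t (QuotientGroup.mk g)) :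
    ∀ (l : List G), l ≠ [] → (∀ s ∈ l, Letter S s) → ∀ (p q : G ⧸ φ.range) (a : A),
      t p * l.prod = φ (Multiplicative.ofAdd a) * t q →
      WalkSum (edge φ S t) Finset.univ p q (a, (l.length : ℤ)) := by
  intro l
  induction l with
  | nil => intro h; exact absurd rfl h
  | cons s l ih =>
    intro _ hl p q a ha
    by_cases hne : l = []
    · subst hne
      refine .single ⟨by simp, s, hl s (by simp), by simpa using ha⟩
    · obtain ⟨a₁, ha₁⟩ := ht (t p * s)
      set r := (QuotientGroup.mk (t p * s) : G ⧸ φ.range) with hr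
      have h1 : t r * l.prod = φ (Multiplicative.ofAdd (a - a₁)) * t q := by
        rw [List.prod_cons, ← mul_assoc, ha₁] at ha
        rw [ofAdd_sub, div_eq_inv_mul, map_mul, map_inv, mul_assoc, ← ha]
        group
      have h2 := ih hne (fun s hs => hl s (List.mem_cons_of_mem _ hs)) r q (a - a₁) h1
      have h3 : ((a, ((s :: l).length : ℤ)) : A × ℤ) = (a₁, 1) + (a - a₁, (l.length : ℤ)) := by
        ext
        · simp
        · simp [add_comm]
      rw [h3]
      exact .cons ⟨rfl, s, hl s (by simp), ha₁⟩ (Finset.mem_univ _) h2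

lemma word_of_walk {S : Finset G} {t : G ⧸ φ.range → G} [Fintype (G ⧸ φ.range)]
    {p q : G ⧸ φ.range} {x : A × ℤ} (h : WalkSum (edge φ S t) Finset.univ p q x) :
    ∃ l : List G, (∀ s ∈ l, Letter S s) ∧ (l.length : ℤ) = x.2 ∧
      t p * l.prod = φ (Multiplicative.ofAdd x.1) * t q := by
  induction h with
  | @single p q m h =>
    obtain ⟨h1, s, hs, hs'⟩ := h
    exact ⟨[s], by simpa using hs, by simp [h1], by simpa using hs'⟩
  | @cons p r q m m' h _ h' ih =>
    obtain ⟨h1, s, hs, hs'⟩ := h
    obtain ⟨l, hl, hl', hl''⟩ := ih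
    refine ⟨s :: l, ?_, ?_, ?_⟩
    · intro x hx
      rw [List.mem_cons] at hx
      rcases hx with rfl | hx
      · exact hs
      · exact hl x hx
    · simp [hl', h1, add_comm]
    · rw [List.prod_cons, ← mul_assoc, hs', mul_assoc, hl'', ← mul_assoc, ← map_mul, ← ofAdd_add]
      rfl

/-- the sublevel set of word length over a coset -/
def sublevel (φ : Multiplicative A →* G) (S : Finset G) (t : G ⧸ φ.range → G)
    (q : G ⧸ φ.range) : Set (A × ℤ) :=
  {x | (wordLength S (φ (Multiplicative.ofAdd x.1) * t q) : ℤ) ≤ x.2}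

lemma isSemilinearSet_sublevel [Finite (G ⧸ φ.range)] (hφ : Function.Injective φ) {S : Finset G}
    (hS : Subgroup.closure (S : Set G) = ⊤) {t : G ⧸ φ.range → G}
    (ht : ∀ g : G, ∃ a : A, g = φ (Multiplicative.ofAdd a) * t (QuotientGroup.mk g))
    (q : G ⧸ φ.range) : IsSemilinearSet (sublevel φ S t q) := by
  classical
  have := Fintype.ofFinite (G ⧸ φ.range)
  obtain ⟨a₀, ha₀⟩ := ht 1
  set p₀ := (QuotientGroup.mk (1 : G) : G ⧸ φ.range) with hp₀
  -- t p₀ = φ (-a₀)
  have htp : t p₀ = φ (Multiplicative.ofAdd (-a₀)) := by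
    rw [ofAdd_neg, map_inv]
    exact (inv_eq_of_mul_eq_one_right ha₀.symm).symm
  have hEs : ∀ p q, IsSemilinearSet (edge φ S t p q) := fun p q =>
    IsSemilinearSet.of_finite (edge_finite φ hφ S t p q)
  have hW := isSemilinearSet_walkSum hEs Finset.univ p₀ q
  have hfin : ({x : A × ℤ | x.2 = 0 ∧ φ (Multiplicative.ofAdd x.1) * t q = 1}).Finite := by
    apply Set.Subsingleton.finite
    rintro ⟨a, n⟩ ⟨hn, ha⟩ ⟨b, m⟩ ⟨hm, hb⟩
    simp only at hn hm ha hb
    have := hφ (mul_right_cancel (ha.trans hb.symm))
    rw [hn, hm, Multiplicative.ofAdd.injective this]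
  have hmain : sublevel φ S t q = {x : A × ℤ | x.2 = 0 ∧ φ (Multiplicative.ofAdd x.1) * t q = 1} ∪
      ((a₀, (0 : ℤ)) +ᵥ {m | WalkSum (edge φ S t) Finset.univ p₀ q m}) := by
    ext ⟨a, n⟩
    constructor
    · intro h
      change (wordLength S (φ (Multiplicative.ofAdd a) * t q) : ℤ) ≤ n at h
      have hn : 0 ≤ n := le_trans (by positivity) h
      obtain ⟨k, rfl⟩ := Int.eq_ofNat_of_zero_le hn
      have h' : wordLength S (φ (Multiplicative.ofAdd a) * t q) ≤ k := by exact_mod_cast h
      obtain ⟨l, hl, hl', hl''⟩ := (wordLength_le_iff hS _ _).1 h'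
      by_cases hne : l = []
      · left
        subst hne
        simp at hl hl''
        exact ⟨by simp [← hl], hl''.symm⟩
      · right
        refine ⟨(-a₀ + a, (k : ℤ)), ?_, by ext <;> simp⟩
        change WalkSum (edge φ S t) Finset.univ p₀ q (-a₀ + a, (k : ℤ))
        rw [← hl]
        apply walk_of_word ht l hne hl'
        rw [htp, hl'', ← mul_assoc, ← map_mul, ← ofAdd_add]
    · rintro (⟨h1, h2⟩ | ⟨⟨b, m⟩, h1, h2⟩)
      · simp only at h1 h2
        change (wordLength S (φ (Multiplicative.ofAdd a) * t q) : ℤ) ≤ n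
        rw [h1, h2]
        have : wordLength S (1 : G) ≤ 0 := (wordLength_le_iff hS _ _).2 ⟨[], by simp⟩
        exact_mod_cast this
      · obtain ⟨l, hl, hl', hl''⟩ := word_of_walk h1
        simp only [vadd_eq_add, Prod.mk_add_mk, Prod.mk.injEq, zero_add] at h2
        obtain ⟨rfl, rfl⟩ := h2
        change (wordLength S (φ (Multiplicative.ofAdd (a₀ + b)) * t q) : ℤ) ≤ m
        simp only at hl' hl''
        rw [← hl']
        have : wordLength S (φ (Multiplicative.ofAdd (a₀ + b)) * t q) ≤ l.length := by
          refine (wordLength_le_iff hS _ _).2 ⟨l, rfl, hl, ?_⟩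
          rw [htp] at hl''
          rw [ofAdd_add, map_mul, mul_assoc, ← hl'', ofAdd_neg, map_inv]
          group
        exact_mod_cast this
  rw [hmain]
  exact (IsSemilinearSet.of_finite hfin).union (hW.vadd _)

end main

theorem countable_closure_of_hom {G A : Type*} [Group G] [AddCommGroup A]
    (φ : Multiplicative A →* G) (hφ : Function.Injective φ) [Finite (G ⧸ φ.range)]
    (hN : φ.range.Normal) {S : Finset G} (hS : Subgroup.closure (S : Set G) = ⊤) :
    (_root_.closure (range (busemann S))).Countable := by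
  classical
  have hG : Countable G := countable_of_closure hS
  have hA : Countable A := by
    have : Function.Injective (fun a : A => φ (Multiplicative.ofAdd a)) := fun a b h =>
      Multiplicative.ofAdd.injective (hφ h)
    exact this.countable
  obtain ⟨t, ht'⟩ : ∃ t : G ⧸ φ.range → G, ∀ q, (QuotientGroup.mk (t q) : G ⧸ φ.range) = q :=
    ⟨fun q => q.out, fun q => q.out_eq'⟩
  have ht : ∀ g : G, ∃ a : A, g = φ (Multiplicative.ofAdd a) * t (QuotientGroup.mk g) := by
    intro g
    have h1 : (t (QuotientGroup.mk g : G ⧸ φ.range))⁻¹ * g ∈ φ.range :=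
      QuotientGroup.eq.1 (ht' _)
    have h2 := hN.mem_comm h1
    obtain ⟨a, ha⟩ := h2
    refine ⟨Multiplicative.toAdd a, ?_⟩
    rw [ofAdd_toAdd, ha]
    group
  choose co hco using ht
  have ht : ∀ g : G, ∃ a : A, g = φ (Multiplicative.ofAdd a) * t (QuotientGroup.mk g) :=
    fun g => ⟨_, hco g⟩
  -- the countable set of data
  let 𝒮 : ∀ q : G ⧸ φ.range, Set (Set (A × ℤ)) := fun q =>
    range (fun u : Ultrafilter (A × ℤ) => shiftSet u (sublevel φ S t q))
  have h𝒮 : ∀ q, (𝒮 q).Countable := fun q =>
    countableShifts_of_isSemilinearSet (isSemilinearSet_sublevel hφ hS ht q)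
  have hpi : (Set.pi univ 𝒮).Countable := countable_univ_pi h𝒮
  let decode : (G ⧸ φ.range) × (G ⧸ φ.range → Set (A × ℤ)) → G → ℝ := fun jΦ y =>
    ((sInf {m : ℤ | (co (t jΦ.1 * y), m) ∈ jΦ.2 (QuotientGroup.mk (t jΦ.1 * y))} : ℤ) : ℝ)
  have hcount : (decode '' ((univ : Set (G ⧸ φ.range)) ×ˢ (Set.pi univ 𝒮))).Countable :=
    ((Set.to_countable _).prod hpi).image _
  refine hcount.mono ?_
  intro f hf
  obtain ⟨w, hw'⟩ := exists_ultrafilter_bInt hf
  -- coset
  obtain ⟨j, hj⟩ : ∃ j : G ⧸ φ.range, ∀ᶠ x in (w : Filter G),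
      (QuotientGroup.mk (x⁻¹) : G ⧸ φ.range) = j :=
    Ultrafilter.eventually_exists_iff.1 (Eventually.of_forall fun x => ⟨_, rfl⟩)
  let u : Ultrafilter (A × ℤ) := w.map (fun x => (co x⁻¹, (wordLength S x⁻¹ : ℤ)))
  refine ⟨(j, fun q => shiftSet u (sublevel φ S t q)), ⟨trivial, fun q _ => ⟨u, rfl⟩⟩, ?_⟩
  ext y
  obtain ⟨k, hk, hk'⟩ := hw' y
  rw [hk]
  simp only [decode]
  congr 1
  have : {m : ℤ | (co (t j * y), m) ∈ shiftSet u (sublevel φ S t (QuotientGroup.mk (t j * y)))} =
      Ici k := by
    ext m
    simp only [mem_ofPred_eq, mem_Ici, shiftSet, u, Ultrafilter.coe_map, eventually_map, sublevel,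
      Prod.mk_add_mk]
    have key : ∀ᶠ x in (w : Filter G), ((wordLength S (φ (Multiplicative.ofAdd
        (co x⁻¹ + co (t j * y))) * t (QuotientGroup.mk (t j * y))) : ℤ) ≤ wordLength S x⁻¹ + m ↔
        k ≤ m) := by
      filter_upwards [hj, hk'] with x hx hx'
      have h1 : φ (Multiplicative.ofAdd (co x⁻¹ + co (t j * y))) * t (QuotientGroup.mk (t j * y))
          = x⁻¹ * y := by
        rw [ofAdd_add, map_mul, mul_assoc, ← hco (t j * y), ← mul_assoc]
        congr 1
        rw [← hx]
        exact (hco x⁻¹).symm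
      rw [h1, ← hx', bInt, mul_one]
      constructor <;> intro h <;> linarith
    constructor
    · intro h
      obtain ⟨x, hx1, hx2⟩ := (key.and h).exists
      exact hx1.1 hx2
    · intro h
      filter_upwards [key] with x hx
      exact hx.2 h
  rw [this, csInf_Ici]


/-- For every finitely generated virtually abelian group `G` and every finite generating set `S`,
the metric-functional boundary of the Cayley metric is countable. -/
theorem result (G : Type*) [Group G] (A : Subgroup G) (hfin : A.FiniteIndex)
    (hcomm : ∀ a ∈ A, ∀ b ∈ A, a * b = b * a) (S : Finset G)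
    (hS : Subgroup.closure (S : Set G) = ⊤) : (horoBoundary S).Countable := by
  let N := A.normalCore
  have hNfin : N.FiniteIndex := inferInstance
  have hNnormal : N.Normal := inferInstance
  let _ : CommGroup N := { (inferInstance : Group N) with
    mul_comm := fun a b => Subtype.ext (hcomm a (A.normalCore_le a.2) b (A.normalCore_le b.2)) }
  let φ : Multiplicative (Additive N) →* G :=
    { toFun := fun x => ((Additive.toMul (Multiplicative.toAdd x) : N) : G)
      map_one' := rfl
      map_mul' := fun _ _ => rfl }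
  have hφ : Function.Injective φ := by
    intro x y h
    have : (Additive.toMul (Multiplicative.toAdd x) : N) = Additive.toMul (Multiplicative.toAdd y) :=
      Subtype.ext h
    exact Multiplicative.toAdd.injective (Additive.toMul.injective this)
  have hrange : φ.range = N := by
    ext g
    constructor
    · rintro ⟨x, rfl⟩
      exact (Additive.toMul (Multiplicative.toAdd x) : N).2
    · intro hg
      exact ⟨Multiplicative.ofAdd (Additive.ofMul ⟨g, hg⟩), rfl⟩
  have h1 : φ.range.Normal := by rw [hrange]; exact hNnormal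
  have h2 : Finite (G ⧸ φ.range) := by
    rw [hrange]
    exact Subgroup.finite_quotient_of_finiteIndex
  exact (countable_closure_of_hom φ hφ h1 hS).mono sdiff_subset

end Pool.Agent.Results.MP_1403bb_al.VirtAbelian
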